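import Pool.Agent.Helper458.Dav.P_final

set_option autoImplicit false

namespace Pool.Agent.Results.MP_e4b1aa_an.DavisConstant

open Pool.Dav

/-- The sharp weak-type (1,1) constant of the Hilbert transform on complex-valued functions equals
Davis' constant, which is also the constant for real-valued functions. -/
theorem result :
    weakConstC = ENNReal.ofReal ((∑' k : ℕ, (1 : ℝ) / (2 * k + 1) ^ 2)
      / ∑' k : ℕ, (-1 : ℝ) ^ k / (2 * k + 1) ^ 2) ∧
    weakConstR = ENNReal.ofReal ((∑' k : ℕ, (1 : ℝ) / (2 * k + 1) ^ 2)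
      / ∑' k : ℕ, (-1 : ℝ) ^ k / (2 * k + 1) ^ 2) :=
  final

end Pool.Agent.Results.MP_e4b1aa_an.DavisConstant
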